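import Pool.Agent.H557Z.JointUpper

/-!
For every `n ≥ 4`, a set of `L` lines in a finite simple matroid has at most `3 L^(5/3)`
`n`-dimensional joints. Hence `J_n(L) < L^(2 - 1/4)` for all large `L`.
-/

namespace Pool.Agent.Results.MP_d9ed39_co.APowerSaving

open Pool.Agent.H557Z.Joints

theorem result (n : ℕ) (hn : 4 ≤ n) {α : Type*} (M : Matroid α) (hfin : M.E.Finite)
    (hs : IsSimple M) (𝔏 : Finset (Set α)) (h𝔏 : ∀ l ∈ 𝔏, IsLine M l) :
    ({x | IsJoint M 𝔏 n x}.ncard : ℝ) ≤ 3 * (𝔏.card : ℝ) ^ ((5 : ℝ) / 3) := by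
  have hf : {x | IsJoint M 𝔏 n x}.Finite := hfin.subset fun x hx => hx.1
  rw [Set.ncard_eq_toFinset_card _ hf]
  exact card_le_real hs h𝔏 hn (fun x hx => by simpa using hx)

end Pool.Agent.Results.MP_d9ed39_co.APowerSaving
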